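import Pool.Agent.K1H53.EX.Main

/-!
# Exclusion processes with heavy left tails have no blocking stationary distribution

For every kernel `p` with finite mean, positive drift and infinite second moment of the left tail
(condition (H) of the problem) whose left tail satisfies `p(-m) ≥ c m ^ (-α)` for some `c > 0` and
some `α` with `α ^ 2 < 3 α - 1` (that is `α < (3 + √5) / 2 = 2.618...`), the exclusion process with
kernel `p` has no stationary distribution whose density tends to `0` at `-∞` and to `1` at `+∞`.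
An explicit kernel of this kind is given.
-/

set_option autoImplicit false

open MeasureTheory Filter Topology

namespace Pool.Agent.Results.MP_8cded5_pr.NoBlockingMeasures

/-- A configuration of particles on `ℤ`: the site `x` is occupied when `η x = true`. -/
abbrev Config := ℤ → Bool

/-- The configuration after an attempted jump from `x` to `y`: the particle moves if `x` is occupied
and `y` is vacant, otherwise nothing happens. -/
def jump (x y : ℤ) (η : Config) : Config :=
  if η x = true ∧ η y = false then Function.update (Function.update η x false) y true else η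

/-- The generator of the exclusion process with kernel `p`:
`(L f)(η) = ∑ over (x, y) of p(y - x) (f(η after the attempted jump from x to y) - f(η))`. -/
noncomputable def generator (p : ℤ → ℝ) (f : Config → ℝ) (η : Config) : ℝ :=
  ∑' q : ℤ × ℤ, p (q.2 - q.1) * (f (jump q.1 q.2 η) - f η)

/-- `P` is a transition semigroup of the exclusion process with kernel `p` (in terms of the process,
`P t f η = E[f(η_t)]` for the process started from `η`): a strongly continuous semigroup of positive
operators on the continuous functions of the configuration, which fixes the constants, and whose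
generator is `generator p` on the functions of finitely many sites. -/
structure IsExclusionSemigroup (p : ℤ → ℝ) (P : ℝ → C(Config, ℝ) →L[ℝ] C(Config, ℝ)) : Prop where
  zero : ∀ f, P 0 f = f
  add : ∀ s t, 0 ≤ s → 0 ≤ t → ∀ f, P (s + t) f = P s (P t f)
  continuous : ∀ f, ContinuousOn (fun t => P t f) (Set.Ici 0)
  nonneg : ∀ t, 0 ≤ t → ∀ f : C(Config, ℝ), (∀ η, 0 ≤ f η) → ∀ η, 0 ≤ P t f η
  one : ∀ t, 0 ≤ t → P t 1 = 1
  generator : ∀ (f : C(Config, ℝ)) (Λ : Finset ℤ), DependsOn (fun η => f η) (Λ : Set ℤ) →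
    ∃ g : C(Config, ℝ), (∀ η, g η = generator p (fun ζ => f ζ) η) ∧
      Tendsto (fun t : ℝ => t⁻¹ • (P t f - f)) (𝓝[>] 0) (𝓝 g)

/-- `μ` is a stationary distribution of the exclusion process with kernel `p`: the process started
from `μ` has law `μ` at every time. -/
def IsStationary (p : ℤ → ℝ) (μ : Measure Config) : Prop :=
  ∃ P, IsExclusionSemigroup p P ∧
    ∀ t, 0 ≤ t → ∀ f : C(Config, ℝ), ∫ η, P t f η ∂μ = ∫ η, f η ∂μ

/-- Both limits of the problem: the density tends to `0` at `-∞` and to `1` at `+∞`. -/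
def HasBlockingProfile (μ : Measure Config) : Prop :=
  Tendsto (fun x : ℤ => μ.real {η | η x = true}) atBot (𝓝 0) ∧
    Tendsto (fun x : ℤ => μ.real {η | η x = true}) atTop (𝓝 1)

/-- The standing assumptions of the problem and condition (H): `p` is a probability kernel whose
random walk is irreducible (every integer is a sum of steps of positive probability), with finite
mean, positive drift and infinite second moment of the left tail. -/
structure ConditionH (p : ℤ → ℝ) : Prop where
  nonneg : ∀ m, 0 ≤ p m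
  sum_one : HasSum p 1
  irreducible : AddSubmonoid.closure {m : ℤ | 0 < p m} = ⊤
  mean : Summable fun m : ℤ => |(m : ℝ)| * p m
  drift : 0 < ∑' m : ℤ, (m : ℝ) * p m
  second : ¬ Summable fun m : ℕ => (m : ℝ) ^ 2 * p (-(m : ℤ))

/-- The left tail of the kernel is at least `c m ^ (-α)`, with `c > 0` and `α ^ 2 < 3 α - 1`. -/
def HeavyLeftTail (p : ℤ → ℝ) : Prop :=
  ∃ c α : ℝ, 0 < c ∧ α ^ 2 < 3 * α - 1 ∧ ∀ m : ℕ, 1 ≤ m → c * (m : ℝ) ^ (-α) ≤ p (-(m : ℤ))

/-- An explicit kernel: `p₀(-m) = m ^ (-5/2) / 10` for `m ≥ 1`, and the rest of the mass sits at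
`1`. -/
noncomputable def p₀ (m : ℤ) : ℝ :=
  if m < 0 then (1 / 10) * (-(m : ℝ)) ^ (-(5 / 2 : ℝ))
  else if m = 1 then 1 - (1 / 10) * ∑' k : ℕ, ((k : ℝ) + 1) ^ (-(5 / 2 : ℝ))
  else 0

theorem jump_eq (x y : ℤ) (η : Config) :
    jump x y η = Pool.Agent.K1H53.EX.T Pool.Agent.K1H53.EX.a1 x y η := by
  unfold jump Pool.Agent.K1H53.EX.T Pool.Agent.K1H53.EX.a1
  by_cases hxy : x = y
  · subst hxy
    have : ¬ (η x = true ∧ η x = false) := by
      rintro ⟨h1, h2⟩
      rw [h1] at h2
      exact absurd h2 (by simp)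
    rw [if_neg this, if_pos rfl]
  · rw [if_neg hxy]
    by_cases h : η x = true ∧ η y = false
    · rw [if_pos h]
      simp [h.1, h.2]
    · rw [if_neg h]
      have h2 : ¬ ((η x && !η y) = true) := by
        simpa using h
      simp only [h2]
      simp

theorem generator_eq (p : ℤ → ℝ) (f : Config → ℝ) (η : Config) :
    generator p f η = Pool.Agent.K1H53.EX.genL Pool.Agent.K1H53.EX.a1 p f η := by
  unfold generator Pool.Agent.K1H53.EX.genL
  simp only [jump_eq]

/-- A function of finitely many sites is continuous. -/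
theorem continuous_local (f : Config → ℝ) (Λ : Finset ℤ) (h : DependsOn f (Λ : Set ℤ)) :
    Continuous f := by
  rw [dependsOn_iff_factorsThrough] at h
  obtain ⟨g, hg⟩ := (Function.factorsThrough_iff f).1 h
  rw [hg]
  exact (continuous_of_discreteTopology (f := g)).comp (continuous_pi fun i => continuous_apply _)

/-- Stationarity gives the generator condition. -/
theorem stat_of {p : ℤ → ℝ} {μ : Measure Config} [IsProbabilityMeasure μ]
    (h : IsStationary p μ) : Pool.Agent.K1H53.EX.Stat Pool.Agent.K1H53.EX.a1 p μ := by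
  obtain ⟨P, hP, hμ⟩ := h
  intro f Λ hf
  obtain ⟨g, hg, hlim⟩ := hP.generator ⟨f, continuous_local f Λ hf⟩ Λ hf
  have h1 : Tendsto (fun t : ℝ => ∫ η, (t⁻¹ • (P t ⟨f, continuous_local f Λ hf⟩ -
      ⟨f, continuous_local f Λ hf⟩) : C(Config, ℝ)) η ∂μ) (𝓝[>] 0) (𝓝 (∫ η, g η ∂μ)) :=
    ((Pool.Agent.K1H53.EX.cont_int μ).tendsto g).comp hlim
  have h2 : ∀ᶠ t : ℝ in 𝓝[>] 0, ∫ η, (t⁻¹ • (P t ⟨f, continuous_local f Λ hf⟩ -
      ⟨f, continuous_local f Λ hf⟩) : C(Config, ℝ)) η ∂μ = 0 := by
    filter_upwards [self_mem_nhdsWithin] with t ht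
    have ht0 : (0:ℝ) ≤ t := le_of_lt ht
    simp only [ContinuousMap.smul_apply, ContinuousMap.sub_apply, smul_eq_mul]
    rw [integral_const_mul, integral_sub (Pool.Agent.K1H53.EX.cint μ (ContinuousMap.continuous _))
      (Pool.Agent.K1H53.EX.cint μ (ContinuousMap.continuous _)), hμ t ht0]
    simp
  have h3 : ∫ η, g η ∂μ = 0 :=
    tendsto_nhds_unique h1 (tendsto_const_nhds.congr' (h2.mono fun t ht => ht.symm))
  rw [← h3]
  refine integral_congr_ae (ae_of_all _ fun η => ?_)
  show Pool.Agent.K1H53.EX.genL Pool.Agent.K1H53.EX.a1 p f η = g η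
  rw [hg η, generator_eq]
  rfl

/-- Existence of the semigroup. -/
theorem exists_semigroup {p : ℤ → ℝ} (hp : ∀ m, 0 ≤ p m) (hs : Summable p) :
    ∃ P, IsExclusionSemigroup p P := by
  obtain ⟨P, hP⟩ := Pool.Agent.K1H53.EX.pSG Bool Pool.Agent.K1H53.EX.a1 p hp hs
  refine ⟨P, hP.zero, hP.add, hP.cont, ?_, ?_, ?_⟩
  · intro t ht f hf
    refine hP.conv {f | ∀ η, 0 ≤ f η} ?_ ?_ ?_ t ht f hf
    · have : {f : C(Config, ℝ) | ∀ η, 0 ≤ f η} = ⋂ η, {f : C(Config, ℝ) | 0 ≤ f η} := by
        ext f; simp
      rw [this]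
      exact isClosed_iInter fun η => isClosed_le continuous_const
        (continuous_eval_const η)
    · intro f hf g hg a b ha hb _ η
      simp only [ContinuousMap.add_apply, ContinuousMap.smul_apply, smul_eq_mul]
      exact add_nonneg (mul_nonneg ha (hf η)) (mul_nonneg hb (hg η))
    · intro f hf u v η
      exact hf _
  · intro t ht
    refine hP.conv {1} isClosed_singleton (convex_singleton _) ?_ t ht 1 rfl
    intro f hf u v
    rw [Set.mem_singleton_iff] at hf ⊢
    subst hf
    rfl
  · intro f Λ hf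
    obtain ⟨g, hg⟩ := hP.ex f Λ hf
    refine ⟨g, fun η => by rw [hg η, generator_eq], ?_⟩
    have hgen := hP.gen f g Λ hf hg
    rw [Metric.tendsto_nhds]
    intro ε hε
    have hc := (hP.cont g) 0 (Set.mem_Ici.2 le_rfl)
    have hc2 : ∀ᶠ s : ℝ in 𝓝[≥] 0, dist (P s g) g < ε / 2 := by
      have := Metric.tendsto_nhds.1 hc (ε / 2) (by positivity)
      simpa [hP.zero] using this
    obtain ⟨δ, hδ, hδ2⟩ := Metric.mem_nhdsWithin_iff.1 hc2
    filter_upwards [Ioo_mem_nhdsGT hδ] with t ht
    have ht0 : 0 < t := ht.1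
    have key : ∀ s ∈ Set.Icc 0 t, dist (P s g) g < ε / 2 := by
      intro s hs
      refine hδ2 ⟨?_, hs.1⟩
      rw [Metric.mem_ball, Real.dist_eq, sub_zero, abs_of_nonneg hs.1]
      exact lt_of_le_of_lt hs.2 ht.2
    refine lt_of_le_of_lt ?_ (half_lt_self hε)
    rw [ContinuousMap.dist_le (by positivity)]
    intro η
    have hcη : ContinuousOn (fun s => P s g η) (Set.uIcc 0 t) := by
      rw [Set.uIcc_of_le ht0.le]
      exact ((continuous_eval_const η).comp_continuousOn (hP.cont g)).mono
        Set.Icc_subset_Ici_self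
    have h1 : (t⁻¹ • (P t f - f) : C(Config, ℝ)) η - g η =
        t⁻¹ * ∫ s in (0:ℝ)..t, (P s g η - g η) := by
      rw [intervalIntegral.integral_sub hcη.intervalIntegrable intervalIntegrable_const,
        intervalIntegral.integral_const, ← hgen t ht0.le η]
      simp only [ContinuousMap.smul_apply, ContinuousMap.sub_apply, smul_eq_mul, sub_zero]
      field_simp
    rw [Real.dist_eq, h1, abs_mul, abs_of_pos (inv_pos.2 ht0)]
    have h2 : |∫ s in (0:ℝ)..t, (P s g η - g η)| ≤ ε / 2 * |t - 0| := by
      rw [← Real.norm_eq_abs]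
      refine intervalIntegral.norm_integral_le_of_norm_le_const fun s hs => ?_
      rw [Set.uIoc_of_le ht0.le] at hs
      rw [Real.norm_eq_abs, ← Real.dist_eq]
      exact (ContinuousMap.dist_apply_le_dist η).trans (key s ⟨hs.1.le, hs.2⟩).le
    rw [sub_zero, abs_of_pos ht0] at h2
    calc t⁻¹ * |∫ s in (0:ℝ)..t, (P s g η - g η)| ≤ t⁻¹ * (ε / 2 * t) :=
          mul_le_mul_of_nonneg_left h2 (inv_pos.2 ht0).le
      _ = ε / 2 := by field_simp

theorem no_blocking {p : ℤ → ℝ} (h : ConditionH p) (ht : HeavyLeftTail p) :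
    ¬ ∃ μ : Measure Config, IsProbabilityMeasure μ ∧ IsStationary p μ ∧ HasBlockingProfile μ := by
  obtain ⟨c, α, hc, hα, hlow⟩ := ht
  rintro ⟨μ, hμ, hst, hB⟩
  exact Pool.Agent.K1H53.EX.main p c α h.nonneg h.sum_one.summable h.mean hc hα hlow
    ⟨μ, hμ, stat_of hst, hB⟩

theorem conditionH_p₀ : ConditionH p₀ := by
  have h := Pool.Agent.K1H53.EX.ker.1
  exact ⟨h.nonneg, h.sum_one, h.irred, h.mean, h.drift, h.second⟩

theorem heavy_p₀ : HeavyLeftTail p₀ :=
  ⟨1 / 10, 5 / 2, by norm_num, by norm_num, Pool.Agent.K1H53.EX.ker.2⟩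

/-- For every kernel with (H) and `p(-m) ≥ c m ^ (-α)`, `α ^ 2 < 3 α - 1`, the exclusion process
exists and has no stationary distribution with both limits; the explicit kernel `p₀` is such a
kernel, so for it the answer to the question is negative. -/
theorem result :
    (∀ p : ℤ → ℝ, ConditionH p → HeavyLeftTail p →
      (∃ P, IsExclusionSemigroup p P) ∧
        ¬ ∃ μ : Measure Config,
          IsProbabilityMeasure μ ∧ IsStationary p μ ∧ HasBlockingProfile μ) ∧
    (ConditionH p₀ ∧ HeavyLeftTail p₀ ∧ (∃ P, IsExclusionSemigroup p₀ P) ∧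
      ¬ ∃ μ : Measure Config,
        IsProbabilityMeasure μ ∧ IsStationary p₀ μ ∧ HasBlockingProfile μ) :=
  ⟨fun _ h ht => ⟨exists_semigroup h.nonneg h.sum_one.summable, no_blocking h ht⟩,
    conditionH_p₀, heavy_p₀, exists_semigroup conditionH_p₀.nonneg conditionH_p₀.sum_one.summable,
    no_blocking conditionH_p₀ heavy_p₀⟩

end Pool.Agent.Results.MP_8cded5_pr.NoBlockingMeasures
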